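import Mathlib
import Pool.Agent.H451.XB.Def
import Pool.Agent.H451.XB.A2

/-!
# The order formula of Bloch and Kato at `p = 3` in all codimensions for a positive proportion of all
# products of diagonal cubics over `ℚ(√-3)`

Let `K = ℚ(√-3)` and `X = V × Y_1 × ⋯ × Y_r` with any `r`, where

* `V : a_1 x_1 ^ 3 + ⋯ + a_m x_m ^ 3 = 0`, `m = 3, 5, 7`, is a curve, a threefold or a fivefold,
* `Y_t : b_{t,1} y_1 ^ 3 + ⋯ + b_{t,n_t} y_{n_t} ^ 3 = 0`, `n_t = 4` or `2`, is a cubic surface, or the spectrum
  of `K[y] / (b_{t,1} y ^ 3 + b_{t,2})` (so that a product with it is the base change to the extension of `K`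
  generated by a cube root of `b_{t,2} / b_{t,1}`),

all coefficients in `𝓞 K`, not zero.  `X` is a smooth projective variety over `K` of dimension
`m - 2 + 2 #{t | n_t = 4}`, with non-trivial odd cohomology in `1 + 2 #{t | n_t = 4}` degrees.  For each `i` the
motive `M_i = h^(2 i - 1)(X)(i)` is a polarized Chow motive over `K`: by classical work (Weil, Shioda and
Katsura; not in Lean) it is the direct sum of motives `h¹(E_{S,τ})(1)`, where `E_{S,τ} : y ^ 2 + D y = x ^ 3` with
`D = D_{S,τ} = ∏ a_i · ∏_{i ∈ S} a_i · ∏_t (∏ b_{t,i} · ∏_{i ∈ τ_t} b_{t,i})` (`DX`); here `S` is a set of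
`h = (m - 3) / 2` of the `m` indices, and for each `t` the factor of `t` is `1` or comes from a set `τ_t` of half of
the `n_t` indices.  The identity of the numbers of points over all the finite fields is proved here (`MotX`).

The problem asks for `ord_{s = 0} L(s, M) = dim H¹_f(K, M_p) - dim H⁰(K, M_p)`.  We prove this for `p = 3` and
`M = M_i` for all the `i` at once, and for every direct summand `h¹(E_{S,τ})(1)` of them, both sides being zero,
for a positive proportion of ALL the `X`, by the norms of the coefficients (`OrderFormula`): the `L`-functions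
are entire and do not vanish at the centre, and `H¹_f(K, V_3(E_{S,τ})) = H⁰(K, V_3(E_{S,τ})) = 0` for all the
`m.choose h · 3 ^ #{n_t = 2} · 7 ^ #{n_t = 4}` curves.  The prime `3` is ramified in `K` and of bad reduction.

In the boxes `BoxX` with admissible residues (`Res`; they have positive density) the formula holds if all the
Selmer groups of the endomorphism `√-3` of the `E_{S,τ}` have the smallest possible order `3`, and the share of
these `X` tends to `p_0 ^ (C(m, h) · ∏ (1 + C(n_t, n_t / 2)))`, `p_0 = ∏ (1 - 3 ^ (-(2 i + 1))) = 0.639…`.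

## The definitions

* `V_p(W) = T_p(W) ⊗ ℚ_p` is the set of the sequences `x_0, x_1, …` of points of `W` of `p`-power order over
  the algebraic closure of `K` with `p x_{n+1} = x_n` (`IsV`).
* `H¹_f(K, V_p(W))` (`H1f`) is the group of the classes of the continuous cocycles of the absolute Galois
  group of `K` with values in `V_p(W)` whose restrictions to all the completions of `K` are in the image of
  the Kummer map (`LocKum`).  By Bloch and Kato this is their condition.
* The `L`-function of `H^(2 i - 1)(X)` is defined by the numbers of the points of `X` over all the extensions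
  of the residue fields (`IsFrobX`), the one of `E_{S,τ}` by `a_v`, without the Euler factors at the primes
  that divide `3` or a coefficient (which have neither zeros nor poles at the centre, the `E_{S,τ}` having
  potentially good reduction).

## What is new

The law of the Selmer groups and the `L`-values are the engine of my
`MP_0b9e0b_ag.AllCodimensionsH451`.  New here: the `3`-primary parts of the Tate-Shafarevich groups of all the
`E_{S,τ}` (trivial) and `H¹_f = 0`; the descent is helper508's lemma `H508.Z.sha_base` and the passage to the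
groups of Bloch and Kato is the library's (`Y667/BKP`, `R390/NoInv`).
-/

set_option autoImplicit false

namespace Pool.Agent.Results.MP_ec4e4b_nt.AllCodimensionsAtThreeH451

open NumberField IsDedekindDomain Pool.Agent.H451.XP Pool.Agent.H451.XB
open Pool.Agent.H451.TB (SelRoot)
open scoped Classical

/-- **The order formula of Bloch and Kato at `p = 3` in all codimensions for a positive proportion of all
products of a diagonal cubic curve, threefold or fivefold with diagonal cubics of dimension `0` and `2`.** -/
theorem result (K : Type) [Field K] [NumberField K] [IsCyclotomicExtension {3} ℚ K] (m : ℕ)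
    (hm : m = 3 ∨ m = 5 ∨ m = 7) (r : ℕ) (n : Fin r → ℕ) (hn : ∀ t, n t = 2 ∨ n t = 4) :
    -- (1) the motive and the Frobenius eigenvalues, for all `X`
    (∀ (a : Fin m → 𝓞 K) (b : ∀ t : Fin r, Fin (n t) → 𝓞 K), MotX a b ∧
      ∃ (ι : Type) (_ : Fintype ι) (deg : ι → ℕ) (α : HeightOneSpectrum (𝓞 K) → ι → ℂ),
        ∀ v, Gdx a b v → IsFrobX a b v deg (α v)) ∧
    -- (2) the order formula in all the codimensions for a positive proportion of all `X`
    (∃ c : ℝ, 0 < c ∧ ∃ X₀ : ℕ, ∀ X : ℕ, X₀ ≤ X → c * ((AllX K m n X).ncard : ℝ) ≤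
      ({p | p ∈ AllX K m n X ∧ OrderFormula p.1 p.2}.ncard : ℝ)) ∧
    -- (3) the boxes
    (∃ (ρ : Fin m → ℕ) (σ : ∀ t : Fin r, Fin (n t) → ℕ), Res ρ σ) ∧
    ∀ (ρ : Fin m → ℕ) (σ : ∀ t : Fin r, Fin (n t) → ℕ), Res ρ σ →
      -- (4) they have positive density
      (∃ c : ℝ, 0 < c ∧ ∃ X₀ : ℕ, ∀ X : ℕ, X₀ ≤ X →
        c * (X : ℝ) ^ (m + ∑ t, n t) ≤ ((BoxX K ρ σ X).ncard : ℝ)) ∧
      -- (5) the order formula if the Selmer groups are as small as possible
      (∀ X : ℕ, ∀ p ∈ BoxX K ρ σ X, (∀ (S : Idx m) (τ : ∀ t, Ty (n t)),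
        (SelRoot ((DX p.1 p.2 S.1 τ : 𝓞 K) : K)).ncard = 3) → OrderFormula p.1 p.2) ∧
      -- (6) the share of these `X`
      Filter.Tendsto (fun X : ℕ =>
        ({p | p ∈ BoxX K ρ σ X ∧ ∀ (S : Idx m) (τ : ∀ t, Ty (n t)),
          (SelRoot ((DX p.1 p.2 S.1 τ : 𝓞 K) : K)).ncard = 3}.ncard : ℝ) /
        ((BoxX K ρ σ X).ncard : ℝ)) Filter.atTop
        (nhds ((∏' i : ℕ, (1 - (1 / 3 : ℝ) ^ (2 * i + 1))) ^
          (m.choose ((m - 3) / 2) * ∏ t, (1 + (n t).choose (n t / 2))))) :=
  final_XB K m hm r n hn

end Pool.Agent.Results.MP_ec4e4b_nt.AllCodimensionsAtThreeH451
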