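import Pool.Agent.H462.JL.Res
import Pool.Agent.H428.AX.Tlaw
import Pool.Graph.R_seed8.R390.NoInv

/-!
# The order formula of Bloch and Kato at `p = 3` for simultaneous cubic twists over `ℚ(√-3)`

`K = ℚ(√-3)`, `E_B` is the curve `y² + B y = x³` over `K`, a cubic twist of `y² + y = x³`, and
`M_B = h¹(E_B)(1)`, a polarized Chow motive over `K` with the realisations `V_p(E_B)` and the L-function
`L(M_B, s) = L(E_B/K, s + 1)`.

`A_1, …, A_m` are elements of `𝓞 K` which are cube-free and prime to `3`, and `B_i = A_i D` or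
`B_i = A_i D²` (`twist`), the choice depending on `i` only (`s i`); we suppose that neither `B_i / B_j` nor
`B_i B_j`, `i ≠ j`, is identically a cube (`hne`).  `D` runs through ALL the squarefree elements of `𝓞 K` which
are prime to `3` and to the `A_i` (there are at least `c X` such `D` of norm at most `X`), and, in the case
`B_i = A_i D`, through ALL the cube-free elements which are prime to `3` and to the `A_i`, ordered by the norm
(`allCubeFree`).  The theorem is about the motives `M_{B_1}, …, M_{B_m}`, that is, about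
`M_{B_1} ⊕ ⋯ ⊕ M_{B_m}`.  The case `m = 1`, `A_1 = 1` of the latter is the family of ALL the curves `E_B`,
`B` prime to `3` (every element of `K` is a cube times a cube-free element of `𝓞 K`).

* For EVERY `B` which is cube-free, prime to `3`, not a unit and not excluded (`Good`, see below) and has the
  corank zero, we prove the formula of the problem for `M_B` and `p = 3`, both sides being zero: `L(M_B, s)`
  is entire, its order of vanishing at `s = 0` is zero, `H¹_f(K, V_3(E_B)) = 0` and `H⁰(K, V_3(E_B)) = 0`.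
* The coranks of `B_1, …, B_m` are independent: in the class `InClass` (no `B_i` is excluded), and in each of
  the `18` classes of the `D` which are given by `D` modulo `3` and `N D` modulo `9` (each has the share
  `1/18`), the share of the `D` for which all the coranks are zero is exactly `p_0 ^ m`, where
  `p_0 = ∏_{i ≥ 0} (1 - 3^{-(2 i + 1)}) = 0.6390…`.
* For all the cube-free `D`: the share of the `D` for which all the `B_i` are good and have the corank zero is
  exactly `(9 - n) / 9 * p_0 ^ m`, where `n ≤ m`.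
* So the formula holds simultaneously for `M_{B_1}, …, M_{B_m}`, and for their sum, for a share of at least
  `(9 - n) / 9 * p_0 ^ m` of all the `D` (squarefree or cube-free).  For `m = 1` this is more than `56.8 %` of
  all the `D`.

The excluded elements and the corank.  Every `B` which is cube-free and prime to `3` is
`± ω ^ k ∏ π_i ^ e_i` with different primes `π_i ≡ 1` modulo `3`, `e_i = 1, 2` and a unique `k` modulo `3`.
`B` is excluded if `B ≡ ± 1` modulo `3` and `N B ≡ 1` modulo `9`.  The corank `r` of `B` is defined by the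
cubic residue symbols `χ_{ji} = (π_i / π_j)_3` and `q_j = (N π_j - 1) / 3` (so that `(ω / π_j)_3 = q_j`): the
system `∑_i e_i χ_{ji} (v_i - v_j) = k q_j v_j` over the field with three elements has `3 ^ r` solutions if
`k ≠ 0` and `3 ^ (r + 1)` solutions if `k = 0`.

The prime `p = 3` divides the number of the units of the field of complex multiplication, is ramified in
it, and `E_B` has additive, potentially supersingular reduction above it.

## The definitions

* `L(E_B/K, s)` is Mathlib's `WeierstrassCurve.LSeries`.  The conductor of `E_B` is divided exactly by the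
  primes of additive reduction (`E_B` has complex multiplication, so that there is no multiplicative
  reduction), for which the Euler factor is one.
* `V_p(W) = T_p(W) ⊗ ℚ_p` is the set of the sequences `x_0, x_1, …` of points of `W` of `p`-power order over
  the algebraic closure of `K` with `p x_{n+1} = x_n` (`IsV`; `x_n` is the class of `p^{-n} x` in
  `V_p(W)/T_p(W) = W[p^∞]`).
* `H¹_f(K, V_p(W))` (`H1f`) is the group of the classes of the continuous cocycles of the absolute Galois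
  group of `K` with values in `V_p(W)` whose restrictions to the completions of `K` are in the image of the
  Kummer map `W(K_v) ⊗ ℚ_p → H¹(K_v, V_p(W))` (`LocKum`): the restriction is `τ ↦ τ Q - Q` for a sequence
  `Q_0, Q_1, …` of points over the algebraic closure of `K_v` with `p Q_{n+1} = Q_n`.  By Bloch and Kato this
  is their condition for all the finite places, and there is no condition at the complex place.
* `H⁰(K, V_p(W)) = 0` is `InvariantsZero`.

## The proof

`L(E_B/K, 1) ≠ 0`, the finiteness of `E_B(K)` and of the 3-primary part of the Tate-Shafarevich group, and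
the joint law of the coranks are from the engine of `MP_cd906c_nt.CubicTwistsAllClasses` (helper462, files
`H462/CTU` and `H462/JL`).  The passage to the Bloch-Kato groups is the library's (`Y667/BKP`,
`R390/NoInv`): a cocycle with values in `V_3` that satisfies the local conditions is, level by level, a
cocycle of the Tate-Shafarevich group, and a compactness argument gives a coboundary.  The passage from
the squarefree to the cube-free `D = c² D'` is in `H428/AX` (helper428): for each fixed squarefree `c ≡ 1`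
modulo `3` the law of the squarefree `D'` is applied to the `A_i c²`, and the `c` of large norm contribute at
most a constant times `∑ X / N(c)²`.
-/

set_option autoImplicit false

namespace Pool.Agent.Results.MP_ec4e4b_nt.MostCubicTwistsAtThree

open NumberField Filter
open Pool.Agent.TH841.SH.D (Gal act Pt)
open Pool.Agent.Y667.BKP (PSeq IsV H1f)
open scoped Classical Topology

/-- The curve `E_B : y² + B y = x³`. -/
def curve {K : Type} [Field K] (B : K) : WeierstrassCurve K := ⟨0, 0, B, 0, 0⟩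

section
variable {K : Type} [Field K] [NumberField K]

/-- `L(W/K, s)` converges absolutely for `Re s > 3/2` and has an analytic continuation to the whole
plane. -/
def EntireLSeries (W : WeierstrassCurve K) : Prop :=
  ∃ Φ : ℂ → ℂ, Differentiable ℂ Φ ∧ ∀ s : ℂ, (3 / 2 : ℝ) < s.re →
    LSeriesSummable ((fun n : ℤ => (n : ℂ)) ∘ W.LFunction) s ∧ Φ s = W.LSeries s

/-- `H⁰(K, V_p(W)) = 0`: the elements of `V_p(W)` fixed by the absolute Galois group of `K` are zero. -/
def InvariantsZero (p : ℕ) (W : WeierstrassCurve K) : Prop :=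
  ∀ x : PSeq W, IsV p W x → (∀ (σ : Gal K) (n : ℕ), act W σ.toAlgHom (x n) = x n) → ∀ n, x n = 0

/-- **The formula of the problem** for `M = h¹(W)(1)`, `L(M, s) = L(W/K, s + 1)`, and the prime `p`, both
sides being zero. -/
structure OrderFormula (p : ℕ) (W : WeierstrassCurve K) : Prop where
  /-- `L(M, s)` has an analytic continuation to the whole plane -/
  entire : EntireLSeries W
  /-- the order of vanishing of `L(M, s)` at `s = 0` is zero: for every meromorphic continuation `Φ` of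
  `L(W/K, s)` to a connected open set which contains `1` and the half plane `Re s > 3/2` -/
  order : ∀ (U : Set ℂ) (Φ : ℂ → ℂ), IsOpen U → IsPreconnected U → 1 ∈ U →
    (∀ s : ℂ, (3 / 2 : ℝ) < s.re → s ∈ U) → MeromorphicOn Φ U →
    (∀ s : ℂ, (3 / 2 : ℝ) < s.re → Φ s = W.LSeries s) → meromorphicOrderAt Φ 1 = 0
  /-- `H¹_f(K, M_p) = 0` -/
  selmer : ∀ x : H1f p W, x = 0
  /-- `H⁰(K, M_p) = 0` -/
  invariants : InvariantsZero p W

/-- `B` is cube-free and prime to `3`. -/
def CubeFreePrimeToThree (B : 𝓞 K) : Prop :=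
  (∀ π : 𝓞 K, Prime π → ¬ π ^ 3 ∣ B) ∧ ¬ (3 : ℤ) ∣ Algebra.norm ℤ B

/-- `B` is `± 1` modulo `3` and its norm is `1` modulo `9`. -/
def Excluded (B : 𝓞 K) : Prop := (3 : 𝓞 K) ∣ B ^ 2 - 1 ∧ (9 : ℤ) ∣ Algebra.norm ℤ B - 1

/-- `B` is cube-free and prime to `3`, not a unit, and not excluded. -/
def Good (B : 𝓞 K) : Prop := CubeFreePrimeToThree B ∧ ¬ IsUnit B ∧ ¬ Excluded B

/-- `A D` or `A D²`. -/
def twist (s : Bool) (A D : 𝓞 K) : 𝓞 K := if s then A * D ^ 2 else A * D

/-- `D` is squarefree and prime to `3` and to the `A i`. -/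
def Admissible {m : ℕ} (A : Fin m → 𝓞 K) (D : 𝓞 K) : Prop :=
  (Squarefree D ∧ ¬ (3 : ℤ) ∣ Algebra.norm ℤ D) ∧ ∀ i, IsCoprime (A i) D

/-- `D` is not a unit and no `twist (s i) (A i) D` is excluded. -/
def InClass {m : ℕ} (A : Fin m → 𝓞 K) (s : Fin m → Bool) (D : 𝓞 K) : Prop :=
  ¬ IsUnit D ∧ ∀ i, ¬ Excluded (twist (s i) (A i) D)

/-- The number of the different pairs `(C_i ^ 2 mod 3, N(C_i) mod 9)`, where `C_i = A_i` or `A_i ^ 2`. -/
noncomputable def classes {m : ℕ} (A : Fin m → 𝓞 K) (s : Fin m → Bool) : ℕ :=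
  (Set.range fun i => (Ideal.Quotient.mk (Ideal.span {(3 : 𝓞 K)})
      ((if s i then A i ^ 2 else A i) ^ 2),
    ((Algebra.norm ℤ (if s i then A i ^ 2 else A i) : ℤ) : ZMod 9))).ncard

/-- `B` is the product of `± ω ^ k` and of the powers `π i ^ e i` of different primes `π i`, which are
`1` modulo `3`, and the cubic residue symbol of `π i` modulo `π j` is `ω ^ χ j i`. -/
def IsFactorization (ω B : 𝓞 K) (k : ZMod 3) (n : ℕ) (π : Fin n → 𝓞 K) (e : Fin n → ZMod 3)
    (χ : Fin n → Fin n → ZMod 3) : Prop :=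
  (∀ i, Prime (π i) ∧ (3 : 𝓞 K) ∣ π i - 1 ∧ e i ≠ 0) ∧ Function.Injective π ∧
  (B = ω ^ k.val * ∏ i, π i ^ (e i).val ∨ B = -(ω ^ k.val * ∏ i, π i ^ (e i).val)) ∧
  ∀ i j, i ≠ j →
    π j ∣ π i ^ (((Algebra.norm ℤ (π j)).natAbs - 1) / 3) - ω ^ (χ j i).val

/-- The number of the solutions of the system `∑_i e_i χ_{ji} (v_i - v_j) = k q_j v_j`, where
`q_j = (N π_j - 1) / 3`, over the field with three elements. -/
noncomputable def solutions (k : ZMod 3) {n : ℕ} (π : Fin n → 𝓞 K) (e : Fin n → ZMod 3)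
    (χ : Fin n → Fin n → ZMod 3) : ℕ :=
  Nat.card {v : Fin n → ZMod 3 // ∀ j, ∑ i, e i * χ j i * (v i - v j) =
    k * (((Algebra.norm ℤ (π j) - 1) / 3 : ℤ) : ZMod 3) * v j}

/-- `B` has the corank `r`. -/
def Corank (B : 𝓞 K) (r : ℕ) : Prop :=
  ∃ (ω : 𝓞 K) (k : ZMod 3) (n : ℕ) (π : Fin n → 𝓞 K) (e : Fin n → ZMod 3)
    (χ : Fin n → Fin n → ZMod 3),
    ω ^ 2 + ω + 1 = 0 ∧ IsFactorization ω B k n π e χ ∧
      solutions k π e χ = if k = 0 then 3 ^ (r + 1) else 3 ^ r

/-- The admissible `D` of norm at most `X`. -/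
def all {m : ℕ} (A : Fin m → 𝓞 K) (X : ℕ) : Set (𝓞 K) :=
  {D : 𝓞 K | Algebra.norm ℤ D ≤ X ∧ Admissible A D}

/-- ALL the cube-free `D` of norm at most `X` which are prime to `3` and to the `A i`. -/
def allCubeFree {m : ℕ} (A : Fin m → 𝓞 K) (X : ℕ) : Set (𝓞 K) :=
  {D : 𝓞 K | Algebra.norm ℤ D ≤ X ∧ CubeFreePrimeToThree D ∧ ∀ i, IsCoprime (A i) D}

/-- The admissible `D` of the class of norm at most `X`. -/
def upTo {m : ℕ} (A : Fin m → 𝓞 K) (s : Fin m → Bool) (X : ℕ) : Set (𝓞 K) :=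
  {D : 𝓞 K | Algebra.norm ℤ D ≤ X ∧ Admissible A D ∧ InClass A s D}

/-- The admissible `D` of norm at most `X` with `D ≡ u` modulo `3` and `N D ≡ 1 + 3 t` modulo `9`. -/
def residue {m : ℕ} (A : Fin m → 𝓞 K) (u : 𝓞 K) (t : ℤ) (X : ℕ) : Set (𝓞 K) :=
  {D ∈ all A X | (3 : 𝓞 K) ∣ D - u ∧ (9 : ℤ) ∣ Algebra.norm ℤ D - 1 - 3 * t}

/-- The admissible `D` of norm at most `X` such that the formula of the problem holds for `p = 3` and for
all the `m` motives `h¹(E_{B_i})(1)`. -/
def solved {m : ℕ} (A : Fin m → 𝓞 K) (s : Fin m → Bool) (X : ℕ) : Set (𝓞 K) :=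
  {D ∈ all A X | ∀ i, OrderFormula 3 (curve ((twist (s i) (A i) D : 𝓞 K) : K))}

end

/-- `p_0 = ∏_{i ≥ 0} (1 - 3^{-(2 i + 1)})`. -/
noncomputable def p0 : ℝ := ∏' i : ℕ, (1 - (1 / 3 : ℝ) ^ (2 * i + 1))

/-- every meromorphic continuation agrees near `1` with the entire one, and has the order zero -/
theorem order_zero {W : ℂ → ℂ} {Ψ : ℂ → ℂ} (hΨ : Differentiable ℂ Ψ)
    (hW : ∀ s : ℂ, (3 / 2 : ℝ) < s.re → Ψ s = W s) (hne : Ψ 1 ≠ 0) (U : Set ℂ) (Φ : ℂ → ℂ)
    (_hU : IsOpen U) (hc : IsPreconnected U) (h1 : 1 ∈ U)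
    (hs : ∀ s : ℂ, (3 / 2 : ℝ) < s.re → s ∈ U) (hm : MeromorphicOn Φ U)
    (hL : ∀ s : ℂ, (3 / 2 : ℝ) < s.re → Φ s = W s) : meromorphicOrderAt Φ 1 = 0 := by
  have hopen : IsOpen {s : ℂ | (3 / 2 : ℝ) < s.re} := isOpen_lt continuous_const Complex.continuous_re
  have h2 : (2 : ℂ) ∈ {s : ℂ | (3 / 2 : ℝ) < s.re} := by
    show (3 / 2 : ℝ) < (2 : ℂ).re
    norm_num
  have hmd : MeromorphicOn (Φ - Ψ) U := hm.sub fun s _ => (hΨ.analyticAt s).meromorphicAt
  have h2t : meromorphicOrderAt (Φ - Ψ) 2 = ⊤ := by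
    rw [meromorphicOrderAt_eq_top_iff]
    refine (Filter.Eventually.filter_mono nhdsWithin_le_nhds ?_)
    filter_upwards [hopen.mem_nhds h2] with s hs'
    rw [Pi.sub_apply, hL s hs', hW s hs', sub_self]
  have h1t : meromorphicOrderAt (Φ - Ψ) 1 = ⊤ := by
    by_contra h
    exact (hmd.meromorphicOrderAt_ne_top_of_isPreconnected hc h1 (hs 2 h2) h) h2t
  rw [meromorphicOrderAt_eq_top_iff] at h1t
  have he : Φ =ᶠ[𝓝[≠] 1] Ψ := by
    filter_upwards [h1t] with s hs'
    exact sub_eq_zero.1 hs'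
  rw [meromorphicOrderAt_congr he, (hΨ.analyticAt 1).meromorphicOrderAt_eq,
    (hΨ.analyticAt 1).analyticOrderAt_eq_zero.2 hne]
  rfl

lemma eventually_share {n m : ℕ → ℕ} {L : ℝ}
    (h : Filter.Tendsto (fun X : ℕ => (n X : ℝ) / (m X : ℝ)) Filter.atTop (nhds L)) (ε : ℝ)
    (hε : 0 < ε) : ∃ X₀ : ℕ, ∀ X : ℕ, X₀ ≤ X → (L - ε) * (m X : ℝ) ≤ (n X : ℝ) := by
  obtain ⟨X₀, h1⟩ := Filter.eventually_atTop.1 ((tendsto_order.1 h).1 (L - ε) (by linarith))
  refine ⟨X₀, fun X hX => ?_⟩
  have h2 := h1 X hX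
  rcases Nat.eq_zero_or_pos (m X) with h0 | h0
  · rw [h0, Nat.cast_zero, mul_zero]
    exact Nat.cast_nonneg _
  · rw [lt_div_iff₀ (by exact_mod_cast h0)] at h2
    exact h2.le

section
variable {K : Type} [Field K] [NumberField K] [IsCyclotomicExtension {3} ℚ K] {m : ℕ}
  {A : Fin m → 𝓞 K} {s : Fin m → Bool}

omit [IsCyclotomicExtension {3} ℚ K] in
/-- the members of the class are good -/
lemma good_of (hA : ∀ i, CubeFreePrimeToThree (A i)) {D : 𝓞 K} (hD : Admissible A D)
    (hC : InClass A s D) (i : Fin m) : Good (twist (s i) (A i) D) := by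
  have key : ∀ π : 𝓞 K, Prime π → π ∣ D → ¬ π ∣ A i ∧ ¬ π ^ 2 ∣ D := by
    intro π hπ hd
    refine ⟨fun h => hπ.not_isUnit ((hD.2 i).isUnit_of_dvd' h hd), fun h => hπ.not_isUnit ?_⟩
    rw [sq] at h
    exact hD.1.1 π h
  refine ⟨?_, fun h => hC.1 ?_, hC.2 i⟩
  · unfold twist
    split_ifs
    · refine ⟨fun π hπ hd => ?_, ?_⟩
      · by_cases hpD : π ∣ D
        · obtain ⟨k1, k2⟩ := key π hπ hpD
          have h4 : π ^ 3 ∣ D ^ 2 := hπ.pow_dvd_of_dvd_mul_left 3 k1 hd
          obtain ⟨t, rfl⟩ := hpD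
          have h5 : π ^ 3 = π ^ 2 * π := by ring
          rw [mul_pow, h5] at h4
          have h6 := (mul_dvd_mul_iff_left (pow_ne_zero 2 hπ.ne_zero)).1 h4
          have h7 := hπ.dvd_of_dvd_pow h6
          exact k2 (by rw [sq]; exact mul_dvd_mul_left π h7)
        · exact (hA i).1 π hπ
            (hπ.pow_dvd_of_dvd_mul_right 3 (fun h => hpD (hπ.dvd_of_dvd_pow h)) hd)
      · rw [map_mul, map_pow]
        intro h
        rcases Int.prime_three.dvd_or_dvd h with h | h
        · exact (hA i).2 h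
        · exact hD.1.2 (Int.prime_three.dvd_of_dvd_pow h)
    · refine ⟨fun π hπ hd => ?_, ?_⟩
      · by_cases hpD : π ∣ D
        · obtain ⟨k1, k2⟩ := key π hπ hpD
          have h4 : π ^ 3 ∣ D := hπ.pow_dvd_of_dvd_mul_left 3 k1 hd
          exact k2 ((pow_dvd_pow π (by norm_num)).trans h4)
        · exact (hA i).1 π hπ (hπ.pow_dvd_of_dvd_mul_right 3 hpD hd)
      · rw [map_mul]
        intro h
        rcases Int.prime_three.dvd_or_dvd h with h | h
        · exact (hA i).2 h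
        · exact hD.1.2 h
  · unfold twist at h
    split_ifs at h
    · exact isUnit_of_dvd_unit ((dvd_pow_self D two_ne_zero).trans (dvd_mul_left _ _)) h
    · exact isUnit_of_dvd_unit (dvd_mul_left _ _) h

theorem each {B : 𝓞 K} (hB : Good B) : (∃! r, Corank B r) ∧
    (Corank B 0 → OrderFormula 3 (curve (B : K))) := by
  refine ⟨Pool.Agent.H428.AX.ex_cor hB.1 hB.2.1, fun h0 => ?_⟩
  obtain ⟨⟨j, hj⟩, -⟩ := Pool.Agent.Y455.CTK.jex K
  obtain ⟨z, rfl⟩ := j.surjective B
  have hu : ¬ IsUnit z := fun h => hB.2.1 (h.map j)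
  have hb : ¬ Pool.Agent.H462.JL.bad z := fun h => hB.2.2 ((Pool.Agent.H462.JL.badK_iff j hj z).2 h)
  obtain ⟨-, -, ⟨Ψ, b3, b4, b5⟩, b6⟩ := Pool.Agent.H462.JL.oneG (K := K) j hb hu
    ((Pool.Agent.H462.JL.corG_iff j hj z 0).1 h0)
  obtain ⟨c1, -, c3⟩ := b6 rfl
  have hne : Ψ 1 ≠ 0 := b5 rfl
  have hfin : Finite (curve ((j z : 𝓞 K) : K)).toAffine.Point := c1
  refine ⟨⟨Ψ, b3, b4⟩, fun U Φ hU hc h1 hs hm hL => ?_, ?_, fun x hx hfix => ?_⟩
  · exact order_zero (W := fun z' => (curve ((j z : 𝓞 K) : K)).LSeries z') b3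
      (fun z' hz => (b4 z' hz).2) hne U Φ hU hc h1 hs hm hL
  · refine Pool.Agent.Y667.BKP.h1f_zero Nat.prime_three hfin 0 fun k x hx => ?_
    rw [pow_zero, one_smul]
    exact c3 k x hx
  · exact Pool.Agent.R390.noinv hfin x hx hfix

end

/-- **Main theorem.** -/
theorem result (K : Type) [Field K] [NumberField K] [IsCyclotomicExtension {3} ℚ K] (m : ℕ)
    (A : Fin m → 𝓞 K) (s : Fin m → Bool) (hA : ∀ i, CubeFreePrimeToThree (A i))
    (hne : ∀ i j, i ≠ j → ∀ u : K,
      if s i = s j then (A i : K) ≠ u ^ 3 * A j else (A i : K) * A j ≠ u ^ 3) :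
    -- (1) the number of the `D` and the share of the class
    (∀ X, (all A X).Finite) ∧
    (∃ c : ℝ, 0 < c ∧ ∃ X₀ : ℕ, ∀ X : ℕ, X₀ ≤ X → c * X ≤ ((all A X).ncard : ℝ)) ∧
    classes A s ≤ m ∧ classes A s ≤ 9 ∧
    Tendsto (fun X : ℕ => ((upTo A s X).ncard : ℝ) / ((all A X).ncard : ℝ)) atTop
      (𝓝 ((9 - classes A s) / 9)) ∧
    -- (2) the formula, for each good `B` of corank zero
    (∀ D : 𝓞 K, Admissible A D → InClass A s D → ∀ i, Good (twist (s i) (A i) D)) ∧
    (∀ B : 𝓞 K, Good B → (∃! r, Corank B r) ∧ (Corank B 0 → OrderFormula 3 (curve (B : K)))) ∧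
    -- (3) the share of the `D` of which all the coranks are zero, in the class and in each residue class
    (classes A s < 9 → Tendsto (fun X : ℕ =>
      (({D ∈ upTo A s X | ∀ i, Corank (twist (s i) (A i) D) 0}.ncard : ℕ) : ℝ) /
        ((upTo A s X).ncard : ℝ)) atTop (𝓝 (p0 ^ m))) ∧
    (∀ (u : (𝓞 K)ˣ) (t : ℤ),
      Tendsto (fun X : ℕ => ((residue A u t X).ncard : ℝ) / ((all A X).ncard : ℝ))
        atTop (𝓝 (1 / 18)) ∧
      Tendsto (fun X : ℕ =>
        (({D ∈ residue A u t X | ∀ i, Corank (twist (s i) (A i) D) 0}.ncard : ℕ) : ℝ) /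
          ((residue A u t X).ncard : ℝ)) atTop (𝓝 (p0 ^ m))) ∧
    (0.639 < p0 ∧ p0 < 0.6391) ∧
    -- (4) the formula for all the `m` motives, for a positive share of all the `D`
    (∀ ε : ℝ, 0 < ε → ∃ X₀ : ℕ, ∀ X : ℕ, X₀ ≤ X →
      ((9 - classes A s) / 9 * p0 ^ m - ε) * ((all A X).ncard : ℝ) ≤ ((solved A s X).ncard : ℝ)) ∧
    (m = 1 → ∃ X₀ : ℕ, ∀ X : ℕ, X₀ ≤ X →
      0.568 * ((all A X).ncard : ℝ) ≤ ((solved A s X).ncard : ℝ)) ∧
    -- (5) ALL the cubic twists `B_i = A_i D`: the same for all the cube-free `D`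
    (0 < m → (∀ i, s i = false) → (∀ X, (allCubeFree A X).Finite ∧ all A X ⊆ allCubeFree A X) ∧
      Tendsto (fun X : ℕ => (({D ∈ allCubeFree A X | ∀ i, Good (A i * D)}.ncard : ℕ) : ℝ) /
        ((allCubeFree A X).ncard : ℝ)) atTop (𝓝 ((9 - classes A s) / 9)) ∧
      Tendsto (fun X : ℕ =>
        (({D ∈ allCubeFree A X | ∀ i, Good (A i * D) ∧ Corank (A i * D) 0}.ncard : ℕ) : ℝ) /
          ((allCubeFree A X).ncard : ℝ)) atTop (𝓝 ((9 - classes A s) / 9 * p0 ^ m)) ∧
      (∀ ε : ℝ, 0 < ε → ∃ X₀ : ℕ, ∀ X : ℕ, X₀ ≤ X →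
        ((9 - classes A s) / 9 * p0 ^ m - ε) * ((allCubeFree A X).ncard : ℝ) ≤
          (({D ∈ allCubeFree A X | ∀ i, OrderFormula 3 (curve ((A i * D : 𝓞 K) : K))}.ncard : ℕ) :
            ℝ)) ∧
      (m = 1 → ∃ X₀ : ℕ, ∀ X : ℕ, X₀ ≤ X → 0.568 * ((allCubeFree A X).ncard : ℝ) ≤
        (({D ∈ allCubeFree A X | ∀ i, OrderFormula 3 (curve ((A i * D : 𝓞 K) : K))}.ncard : ℕ) :
          ℝ))) := by
  have hcr : Pool.Agent.Y703.XL.cr 0 = p0 := by
    show (∏' i : ℕ, (1 - (1 / 3 : ℝ) ^ (2 * i + 1))) / ∏ i ∈ Finset.range 0, _ = p0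
    rw [Finset.prod_range_zero, div_one]
    rfl
  obtain ⟨h1, h2, h3, h4, h5, h6, -⟩ := Pool.Agent.H462.JL.finalJ K A s hA
  have hfin : ∀ X, (all A X).Finite := h1
  obtain ⟨-, -, -, hp, -⟩ := Pool.Agent.XL6.finalXL K
  have hp' : 0.639 < p0 ∧ p0 < 0.6391 := by
    rw [← hcr]
    exact ⟨hp.1, hp.2.1⟩
  have hcl : classes A s ≤ m := by
    unfold classes
    rw [← Set.image_univ]
    refine (Set.ncard_image_le (Set.toFinite _)).trans ?_
    rw [Set.ncard_univ, Nat.card_eq_fintype_card, Fintype.card_fin]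
  have hprod : ∏ _i : Fin m, Pool.Agent.Y703.XL.cr 0 = p0 ^ m := by
    rw [Finset.prod_const, Finset.card_univ, Fintype.card_fin, hcr]
  have key : ∀ ε : ℝ, 0 < ε → ∃ X₀ : ℕ, ∀ X : ℕ, X₀ ≤ X →
      ((9 - classes A s) / 9 * p0 ^ m - ε) * ((all A X).ncard : ℝ) ≤
        ((solved A s X).ncard : ℝ) := by
    intro ε hε
    have h7 : Tendsto (fun X : ℕ =>
        (({D ∈ upTo A s X | ∀ i, Corank (twist (s i) (A i) D) 0}.ncard : ℕ) : ℝ) /
          ((all A X).ncard : ℝ))
        atTop (𝓝 ((9 - classes A s) / 9 * ∏ i : Fin m, Pool.Agent.Y703.XL.cr 0)) :=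
      h6 hne fun _ => 0
    rw [hprod] at h7
    obtain ⟨X₀, k⟩ := eventually_share h7 ε hε
    refine ⟨X₀, fun X hX => (k X hX).trans ?_⟩
    norm_cast
    refine Set.ncard_le_ncard ?_ ((hfin X).subset fun D hD => hD.1)
    rintro D ⟨m1, m2⟩
    exact ⟨⟨m1.1, m1.2.1⟩, fun i => (each (good_of hA m1.2.1 m1.2.2 i)).2 (m2 i)⟩
  have hone : m = 1 → (8 : ℝ) / 9 * p0 ≤ (9 - classes A s) / 9 * p0 ^ m := by
    intro hm
    have hpw : p0 ^ m = p0 := by rw [hm, pow_one]
    have h9 : (classes A s : ℝ) ≤ 1 := by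
      have h11 : (classes A s : ℝ) ≤ m := by exact_mod_cast hcl
      have h12 : (m : ℝ) = 1 := by exact_mod_cast hm
      linarith
    rw [hpw]
    have h10 : (8 : ℝ) / 9 ≤ (9 - classes A s) / 9 := by linarith
    exact mul_le_mul_of_nonneg_right h10 (by linarith [hp'.1])
  refine ⟨hfin, h2, hcl, h3, h4, fun D hD hC i => good_of hA hD hC i, fun B hB => each hB,
    fun h9 => ?_, fun u t => ?_, hp', key, fun hm => ?_, fun hm0 hs0 => ?_⟩
  · rw [← hprod]
    exact h5 hne h9 fun _ => 0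
  · obtain ⟨h7, h8⟩ := Pool.Agent.H462.JL.resJ K A s hA u t
    refine ⟨h7, ?_⟩
    rw [← hprod]
    refine (h8 hne fun _ => 0).congr fun X => ?_
    congr 2
    congr 1
    ext D
    exact ⟨fun h => ⟨⟨h.1, h.2.1⟩, h.2.2⟩, fun h => ⟨h.1.1, h.1.2, h.2⟩⟩
  · have h8 := hone hm
    obtain ⟨X₀, k⟩ := key ((9 - classes A s) / 9 * p0 ^ m - 0.568) (by linarith [hp'.1])
    refine ⟨X₀, fun X hX => ?_⟩
    have h7 := k X hX
    rwa [sub_sub_cancel] at h7
  · -- all the cube-free elements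
    have hN : Nonempty (Fin m) := ⟨⟨0, hm0⟩⟩
    obtain rfl : s = fun _ => false := funext hs0
    obtain ⟨k1, -, k3, k4⟩ := Pool.Agent.H428.AX.final_law (A := A) hA
    have hfinC : ∀ X, (allCubeFree A X).Finite := k1
    have hgd : ∀ X, ∀ D ∈ allCubeFree A X, ∀ i,
        (Good (A i * D) ↔ Pool.Agent.H428.AX.Gd (A i * D)) := fun X D hD i =>
      ⟨fun h => h.2, fun h => ⟨Pool.Agent.H428.AX.cf_prod (hA i) hD.2.1 (hD.2.2 i), h⟩⟩
    have hlawC : Tendsto (fun X : ℕ =>
        (({D ∈ allCubeFree A X | ∀ i, Good (A i * D) ∧ Corank (A i * D) 0}.ncard : ℕ) : ℝ) /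
          ((allCubeFree A X).ncard : ℝ)) atTop
        (𝓝 ((9 - classes A (fun _ => false)) / 9 * p0 ^ m)) := by
      have h7 := k4 hne fun _ => 0
      rw [hprod] at h7
      refine h7.congr fun X => ?_
      have e : {D ∈ Pool.Agent.H428.AX.upF A X | (∀ i, Pool.Agent.H428.AX.Gd (A i * D)) ∧
          ∀ i, Pool.Agent.H462.JL.CorKG (A i * D) 0} =
          {D ∈ allCubeFree A X | ∀ i, Good (A i * D) ∧ Corank (A i * D) 0} := by
        ext D
        refine and_congr_right fun hD => ?_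
        rw [forall_and]
        exact and_congr_left fun _ => forall_congr' fun i => (hgd X D hD i).symm
      rw [e]
      rfl
    have keyC : ∀ ε : ℝ, 0 < ε → ∃ X₀ : ℕ, ∀ X : ℕ, X₀ ≤ X →
        ((9 - classes A (fun _ => false)) / 9 * p0 ^ m - ε) * ((allCubeFree A X).ncard : ℝ) ≤
          (({D ∈ allCubeFree A X | ∀ i, OrderFormula 3 (curve ((A i * D : 𝓞 K) : K))}.ncard : ℕ) :
            ℝ) := by
      intro ε hε
      obtain ⟨X₀, k⟩ := eventually_share hlawC ε hε
      refine ⟨X₀, fun X hX => (k X hX).trans ?_⟩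
      norm_cast
      refine Set.ncard_le_ncard ?_ ((hfinC X).subset fun D hD => hD.1)
      rintro D ⟨m1, m2⟩
      exact ⟨m1, fun i => (each (m2 i).1).2 (m2 i).2⟩
    refine ⟨fun X => ⟨hfinC X, fun D hD => ⟨hD.1, ⟨fun π hπ hd => ?_, hD.2.1.2⟩, hD.2.2⟩⟩, ?_, hlawC,
      keyC, fun hm => ?_⟩
    · have h3 : π * π ∣ D := (Dvd.intro π (by ring)).trans hd
      exact hπ.not_isUnit (hD.2.1.1 π h3)
    · refine k3.congr fun X => ?_
      have e : {D ∈ Pool.Agent.H428.AX.upF A X | ∀ i, Pool.Agent.H428.AX.Gd (A i * D)} =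
          {D ∈ allCubeFree A X | ∀ i, Good (A i * D)} := by
        ext D
        exact and_congr_right fun hD => forall_congr' fun i => (hgd X D hD i).symm
      rw [e]
      rfl
    · have h8 := hone hm
      obtain ⟨X₀, k⟩ := keyC ((9 - classes A (fun _ => false)) / 9 * p0 ^ m - 0.568)
        (by linarith [hp'.1])
      refine ⟨X₀, fun X hX => ?_⟩
      have h7 := k X hX
      rwa [sub_sub_cancel] at h7

end Pool.Agent.Results.MP_ec4e4b_nt.MostCubicTwistsAtThree
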