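import Mathlib
import Pool.Graph.R_seed8.R384.End
import Pool.Graph.R_seed8.R384.X.Mq7
import Pool.Graph.R_pool_sql_team_seeded_63374d34.N916.GB.Num
import Pool.Agent.H519.KW.Van
import Pool.Agent.H519.KW.Lval
import Pool.Agent.H519.KW.Crit
import Pool.Agent.H519.KW.Mv
import Pool.Agent.H519.KW.Dn
import Pool.Agent.H519.KW.Gb

/-!
# The order formula of Bloch and Kato for the motives of all weights of the quadratic twists of `X_0(49)`
# over `K = ℚ(√-7)`, and over its multiquadratic extensions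

`K = ℚ(√-7)` has the ring of integers `ℤ[ω]`, `ω² = ω - 2`; `(2) = (ω) (1 - ω)`. For `M ∈ ℤ[ω]`, `M ≠ 0`, let
`E_M : y² + x y = x³ - ((3 M + 1) / 4) x² - 2 M² x - M³` be the quadratic twist by `M` of `X_0(49)`, an elliptic
curve over `K` (in general not defined over `ℚ`) with complex multiplication by `ℤ[ω]`. The powers `ψ_M^{2k-1}` of
its Hecke character `ψ_M` belong to newforms `f_{M, 2k}` of all even weights `2 k`, with coefficients in `K`.
Let `V_k` be the motive over `K`, with rational coefficients, of `ψ_M^{2k-1}`, twisted by `k`; the motive over `ℚ`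
of `f_{M, 2k}`, twisted by `k`, is induced by it. The `L`-function of `V_k` is
`L(s, V_k) = L(ψ_M^{2k-1}, s + k) L(conj ψ_M^{2k-1}, s + k)`, with the centre `s = 0`. If `Gal(ℚ̄/K)` acts on the
`2`-adic Tate module of `E_M` by the characters `κ`, `κ'` then the `2`-adic realization of `V_k` is
`ℚ_2(κ^k κ'^(1-k)) ⊕ ℚ_2(κ^(1-k) κ'^k)`.

The class consists of all the squarefree `D ≡ 1 mod 8` prime to `√-7`, with prime factors of all types.
Let `S` be the set of the primary prime factors of `D`, and `M_S` the matrix over `𝔽_2` of their quadratic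
residue symbols, with the row sums completed by the symbols modulo `√-7`; it is the matrix of the `2`-descent
for `E_D` over `K`. `D` is good if `M_S` is not singular, and very good if also the matrix bordered by the
symbols of the two primes `ω`, `1 - ω` above two is not singular. We prove:

1. If `D` is good then the order formula holds for the prime `2` and the motives `V_k` over `K` for all odd
`k`, and if `D` is very good then it holds for all `k ≥ 1`, i.e. for the newforms `f_{D, 2k}` of all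
the even weights: the `L`-function is entire and not zero at the centre, and the Bloch–Kato Selmer group and
the invariants are zero. More generally this is true over all the multiquadratic fields
`L = K(√d_1, …, √d_n)` and all `E_M`, if the `M ∏_{i ∈ T} d_i` are good (very good) up to squares.
2. Exactly the proportion `c = ∏ (1 - 2^{-i}) = 0.288…` of the `D` of the class, ordered by the norm, is good, and
exactly `c / 2` is very good. For all `M`, `d_1, …, d_n` in the class, independent modulo squares, exactly the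
proportion `c ^ (2 ^ n)` (`(c / 2) ^ (2 ^ n)`) of the `D` of the class prime to them is such that
`(M D; d_1, …, d_n)` is good (very good), and if `(M; d_1, …, d_n)` is good (very good) the same is true for
`(M; d_1, …, d_n, D)`; so there are infinite towers of such fields `L`.

For `D ∈ ℤ` and even `k` the `L`-function vanishes at the centre, because of the sign of the functional
equation; the twists that are not defined over `ℚ` are needed for the even `k`.
-/

set_option autoImplicit false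

namespace Pool.Agent.Results.MP_ec4e4b_nt.OrderFormulaAllWeights

open WeierstrassCurve Filter Topology IsDedekindDomain
open scoped Classical

/-! ### The class and its density -/

/-- The ring of integers `ℤ[ω]`, `ω² = ω - 2`, of `ℚ(√-7)`. -/
abbrev OK : Type := QuadraticAlgebra ℤ (-2) 1

/-- `ω` -/
def om : OK := ⟨0, 1⟩

/-- `√-7 = 2 ω - 1` -/
def s7 : OK := ⟨-1, 2⟩

/-- The norm of an element of `ℤ[ω]`. -/
def norm (z : OK) : ℤ := z.re ^ 2 + z.re * z.im + 2 * z.im ^ 2

/-- The class: `D` is squarefree, `D ≡ 1 mod 8` and prime to `√-7`. -/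
def Adm (D : OK) : Prop := Squarefree D ∧ (8 : OK) ∣ D - 1 ∧ ¬ s7 ∣ D

/-- The primary primes: the prime elements that are prime to `2 √-7` and `1` modulo `ω²`. Each prime ideal
that does not divide `2 √-7` is generated by exactly one of them. -/
def Primary (q : OK) : Prop := Prime q ∧ om ^ 2 ∣ q - 1 ∧ ¬ (1 - om) ∣ q ∧ ¬ s7 ∣ q

/-- The additive residue symbol: `0` if `x` is a square modulo `q`, otherwise `1`. -/
noncomputable def sym (q x : OK) : ZMod 2 := if ∃ y : OK, q ∣ x - y ^ 2 then 0 else 1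

/-- The row `π` of the matrix `M_S` of the symbols, applied to `v`. -/
noncomputable def row (S : Finset OK) (v : OK → ZMod 2) (π : OK) : ZMod 2 :=
  sym s7 π * v π + ∑ ρ ∈ S, sym ρ π * (v π + v ρ)

/-- The matrix `M_S` is not singular. -/
def Regular (S : Finset OK) : Prop :=
  ∀ v : OK → ZMod 2, (∀ π ∈ S, row S v π = 0) → ∀ π ∈ S, v π = 0

/-- The matrix `M_S`, bordered by the column of the symbols of `1 - ω` and the row of the symbols of `ω`,
is not singular. -/
def Bordered (S : Finset OK) : Prop :=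
  ∀ (v : OK → ZMod 2) (e : ZMod 2), (∀ π ∈ S, row S v π + e * sym π (1 - om) = 0) →
    ∑ ρ ∈ S, sym ρ om * v ρ = 0 → (∀ π ∈ S, v π = 0) ∧ e = 0

/-- The good `D`: `M_S` is not singular, `S` being the set of the primary prime factors of `D`. -/
def Good (D : OK) : Prop :=
  ∃ S : Finset OK, (∀ q ∈ S, Primary q) ∧ ∏ q ∈ S, q = D ∧ Regular S

/-- The very good `D`: also the bordered matrix is not singular. -/
def VeryGood (D : OK) : Prop :=
  ∃ S : Finset OK, (∀ q ∈ S, Primary q) ∧ ∏ q ∈ S, q = D ∧ Regular S ∧ Bordered S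

/-- No product of some of the `d_i` is a square: `K(√d_1, …, √d_n)` has degree `2 ^ n` over `K`. -/
def Ind {n : ℕ} (d : Fin n → OK) : Prop :=
  ∀ T : Finset (Fin n), T.Nonempty → ¬ IsSquare (∏ i ∈ T, d i)

/-- The pair of `M` and `d_1, …, d_n` has the property `P`: the `d_i` are independent modulo squares, and
all the `M ∏_{i ∈ T} d_i` are, up to nonzero squares, elements `D` of the class with `P D`. -/
def Pair (P : OK → Prop) (M : OK) {n : ℕ} (d : Fin n → OK) : Prop := Ind d ∧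
  ∀ T : Finset (Fin n), ∃ D z : OK, z ≠ 0 ∧ Adm D ∧ P D ∧ M * ∏ i ∈ T, d i = D * z ^ 2

/-- `M`, `d_1, …, d_n` are in the class, and `d_1, …, d_n` are independent modulo squares. -/
def InClass (M : OK) {n : ℕ} (d : Fin n → OK) : Prop := Adm M ∧ (∀ i, Adm (d i)) ∧ Ind d

/-- The elements `d_1, …, d_n, D`. -/
def add {n : ℕ} (d : Fin n → OK) (D : OK) : Fin (n + 1) → OK := Fin.snoc d D

/-- The number of the `D` of the class of norm at most `X`, prime to `m`, with the property `P`. -/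
noncomputable def count (m : OK) (P : OK → Prop) (X : ℕ) : ℕ :=
  Nat.card {D : OK // Adm D ∧ norm D ≤ X ∧ IsCoprime D m ∧ P D}

/-- The natural density of `P` in the set of the `D` of the class that are prime to `m` is `y`. -/
def Density (m : OK) (P : OK → Prop) (y : ℝ) : Prop :=
  Tendsto (fun X : ℕ => (count m P X : ℝ) / (count m (fun _ => True) X : ℝ)) atTop (𝓝 y)

/-! ### The curves -/

/-- An algebraic closure of `ℚ`. -/
abbrev QBar : Type := AlgebraicClosure ℚ

/-- The field `K = ℚ(w)`. It is `ℚ(√-7)` if `w² = w - 2`. -/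
noncomputable abbrev K (w : QBar) : IntermediateField ℚ QBar := IntermediateField.adjoin ℚ {w}

/-- `w` as an element of `K`. -/
noncomputable def gen (w : QBar) : K w := ⟨w, IntermediateField.mem_adjoin_simple_self ℚ w⟩

/-- The element `a + b ω` of `ℤ[ω]` as an element of the field `L`, `w` being the image of `ω`. -/
def emb {L : Type} [Ring L] (w : L) (z : OK) : L := z.re + z.im * w

/-- The curve `y² = x³ + 3 (1 - w) d x² + w⁴ d² x`. -/
def curve {F : Type} [Field F] (w d : F) : WeierstrassCurve F :=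
  ⟨0, 3 * (1 - w) * d, 0, w ^ 4 * d ^ 2, 0⟩

/-- The curve `E_D : y² = x³ + 3 (1 - ω) D x² + ω⁴ D² x` over `K`. -/
noncomputable def ED (w : QBar) (D : OK) : WeierstrassCurve (K w) := curve (gen w) (emb (gen w) D)

/-- The absolute Galois group of `K`. -/
abbrev Gal (w : QBar) : Type := QBar ≃ₐ[K w] QBar

/-- The subgroups of the Galois group. -/
abbrev Sub (w : QBar) : Type := Subgroup (Gal w)

/-- The characters of the Galois group with values in the units of `ℤ_2`. -/
abbrev Chr (w : QBar) : Type := Gal w →* ℤ_[2]ˣ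

/-- The values of the character `χ`, in `ℤ_2`. -/
noncomputable def zv {w : QBar} (χ : Chr w) (σ : Gal w) : ℤ_[2] := ((χ σ : ℤ_[2]ˣ) : ℤ_[2])

/-- The values of the character `χ`, in `ℚ_2`. -/
noncomputable def qv {w : QBar} (χ : Chr w) (σ : Gal w) : ℚ_[2] := ((zv χ σ : ℤ_[2]) : ℚ_[2])

/-- The group `E_D(ℚ̄)`. -/
abbrev Pts (w : QBar) (D : OK) : Type := ((ED w D).toAffine.baseChange QBar).Point

/-- The action of the Galois group on `E_D(ℚ̄)`. -/
noncomputable def act {w : QBar} {D : OK} (σ : Gal w) : Pts w D →+ Pts w D :=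
  Affine.Point.map (W' := (ED w D).toAffine) (S := K w) (F := QBar) (K := QBar) σ.toAlgHom

/-- The sequences `x` and `y` are elements of the `2`-adic Tate module of the abelian group `A`, and
they are a basis of it. -/
structure IsBasis {A : Type} [AddCommGroup A] (x y : ℕ → A) : Prop where
  zero : x 0 = 0 ∧ y 0 = 0
  double : ∀ n, x (n + 1) + x (n + 1) = x n ∧ y (n + 1) + y (n + 1) = y n
  span : ∀ (n : ℕ) (P : A), (2 ^ n : ℤ) • P = 0 → ∃ a b : ℤ, P = a • x n + b • y n
  indep : ∀ (n : ℕ) (a b : ℤ), a • x n + b • y n = 0 → (2 ^ n : ℤ) ∣ a ∧ (2 ^ n : ℤ) ∣ b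

/-- The endomorphism `f` of the abelian group `A` acts on the element `x` of its `2`-adic Tate module
as the multiplication by the `2`-adic integer `z`. -/
def ActsBy {A : Type} [AddCommGroup A] (f : A →+ A) (x : ℕ → A) (z : ℤ_[2]) : Prop :=
  ∀ (n : ℕ) (k : ℤ), (2 : ℤ_[2]) ^ n ∣ z - k → f (x n) = k • x n

/-! ### The Selmer groups -/

/-- The decomposition group of the place of `K` given by the embedding `ι` of `ℚ̄`. -/
def Dec {w : QBar} {p : ℕ} [Fact p.Prime] (ι : QBar →ₐ[ℚ] PadicAlgCl p) : Set (Gal w) :=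
  {σ | ∃ τ : PadicAlgCl p ≃ₐ[ℚ_[p]] PadicAlgCl p, ∀ x, τ (ι x) = ι (σ x)}

/-- Its inertia group: the automorphisms which are trivial on the residue field. -/
def Inr {w : QBar} {p : ℕ} [Fact p.Prime] (ι : QBar →ₐ[ℚ] PadicAlgCl p) : Set (Gal w) :=
  {σ | ∃ τ : PadicAlgCl p ≃ₐ[ℚ_[p]] PadicAlgCl p, (∀ x, τ (ι x) = ι (σ x)) ∧
    ∀ z : PadicAlgCl p, ‖z‖ ≤ 1 → ‖τ z - z‖ < 1}

/-- The restriction of the function `c` to `H` is a continuous cocycle with values in `ℚ_2(χ)`. -/
structure IsCocycle {w : QBar} (H : Sub w) (χ : Chr w) (c : Gal w → ℚ_[2]) : Prop where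
  cont : ContinuousOn c H
  mul : ∀ σ ∈ H, ∀ τ ∈ H, c (σ * τ) = c σ + qv χ σ * c τ

/-- The restriction of `c` to the intersection of `S` and `H` is a coboundary. -/
def TrivialOn {w : QBar} (H : Sub w) (χ : Chr w) (S : Set (Gal w)) (c : Gal w → ℚ_[2]) : Prop :=
  ∃ y : ℚ_[2], ∀ σ ∈ S, σ ∈ H → c σ = (qv χ σ - 1) * y

/-- The Bloch–Kato conditions over the field `L` fixed by `H`, for a character `χ` whose Hodge–Tate
weight is positive at one of the two places of `K` above `2` and not positive at the other one, which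
is the one that divides `v`: the class is trivial on the inertia groups of the places of `L` prime to
`2` and on the decomposition groups of the places of `L` which divide `v`. -/
structure IsSelmer {w : QBar} (v : QBar) (H : Sub w) (χ : Chr w) (c : Gal w → ℚ_[2]) : Prop where
  odd : ∀ (p : ℕ) [Fact p.Prime] (ι : QBar →ₐ[ℚ] PadicAlgCl p), p ≠ 2 → TrivialOn H χ (Inr ι) c
  two : ∀ ι : QBar →ₐ[ℚ] PadicAlgCl 2, ‖ι v‖ < 1 → TrivialOn H χ (Dec ι) c

/-- All the classes of the Selmer group of `ℚ_2(χ)` over the field fixed by `H` are trivial. -/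
def SelmerZero {w : QBar} (v : QBar) (H : Sub w) (χ : Chr w) : Prop :=
  ∀ c : Gal w → ℚ_[2], IsCocycle H χ c → IsSelmer v H χ c → TrivialOn H χ Set.univ c

/-- The character `κ ^ j κ' ^ (1 - j)`. -/
noncomputable def chi {w : QBar} (κ κ' : Chr w) (j : ℤ) : Chr w := κ ^ j * κ' ^ (1 - j)

/-- `κ` has order at most two on the inertia groups of the places that do not divide `v`. -/
def FiniteOff {w : QBar} (v : QBar) (κ : Chr w) : Prop :=
  ∀ (p : ℕ) [Fact p.Prime] (ι : QBar →ₐ[ℚ] PadicAlgCl p), ‖ι v‖ = 1 → ∀ σ ∈ Inr ι, zv κ σ ^ 2 = 1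

/-- The character `κ` is continuous and the Galois group acts by it on the element `x` of the Tate
module. -/
def Eigen {w : QBar} {D : OK} (κ : Chr w) (x : ℕ → Pts w D) : Prop :=
  Continuous (zv κ) ∧ ∀ σ : Gal w, ActsBy (act σ) x (zv κ σ)

/-- The Galois group acts on the `2`-adic Tate module of `E_D` through the sum of the continuous
characters `κ`, `κ'`; the first one has order at most two on the inertia groups of the places that
do not divide `ω`, and the second one on those of the places that do not divide `1 - ω`. So `κ` has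
the Hodge–Tate weights `1` at `ω` and `0` at `1 - ω`, and `κ'` has the weights `0` at `ω` and `1` at
`1 - ω`. -/
def TateModule {w : QBar} (D : OK) (κ κ' : Chr w) : Prop :=
  (∃ x y : ℕ → Pts w D, IsBasis x y ∧ Eigen κ x ∧ Eigen κ' y) ∧
    FiniteOff w κ ∧ FiniteOff (1 - w) κ'

/-! ### The twists of `X_0(49)` -/

/-- The element `-√-7 D` of `ℤ[ω]`. -/
def tw (D : OK) : OK := -(s7 * D)

/-- The curve `y² + x y = x³ - ((3 d + 1) / 4) x² - 2 d² x - d³`, the quadratic twist by `d` of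
`X_0(49) : y² + x y = x³ - x² - 2 x - 1`. -/
def twist {F : Type} [Field F] (d : F) : WeierstrassCurve F :=
  ⟨1, -((3 * d + 1) / 4), 0, -2 * d ^ 2, -d ^ 3⟩

/-- The curve `E_M` over `K`, the quadratic twist by `M` of `X_0(49)`. -/
noncomputable def EK (w : QBar) (M : OK) : WeierstrassCurve (K w) := twist (emb (gen w) M)

/-- The curves are isomorphic: they differ by a change of variables. -/
def Iso {F : Type} [Field F] (W W' : WeierstrassCurve F) : Prop :=
  ∃ C : VariableChange F, C • W = W'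

/-- The Galois group of `ℚ̄` over the field `L = K(s_1, …, s_n)`. -/
noncomputable def GalL (w : QBar) {n : ℕ} (s : Fin n → QBar) : Sub w :=
  (IntermediateField.adjoin (K w) (Set.range s)).fixingSubgroup

/-! ### The `L`-functions -/

/-- `(D - 1) / 4` for `D ≡ 1 mod 4` -/
def qt (D : OK) : OK := ⟨(D.re - 1) / 4, D.im / 4⟩

/-- The equation `y² + x y = x³ - ((3 D + 1) / 4) x² - 2 D² x - D³` of `E_D` over `ℤ[ω]`, `D ≡ 1 mod 4`. -/
def Eint (D : OK) : WeierstrassCurve OK := ⟨1, -(1 + 3 * qt D), 0, -2 * D ^ 2, -D ^ 3⟩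

/-- The norm of the prime ideal `v`. -/
noncomputable def nv (v : HeightOneSpectrum OK) : ℕ := Nat.card (OK ⧸ v.asIdeal)

/-- The trace of Frobenius: the norm of `v` plus one minus the number of the points of `E_D` modulo `v`
(the affine points and the point at infinity). -/
noncomputable def av (D : OK) (v : HeightOneSpectrum OK) : ℤ := (nv v : ℤ) -
  Nat.card {P : (OK ⧸ v.asIdeal) × (OK ⧸ v.asIdeal) //
    ((Eint D).map (Ideal.Quotient.mk v.asIdeal)).toAffine.Equation P.1 P.2}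

/-- The sum `α ^ n + β ^ n` of the powers of the roots of `X ^ 2 - a X + b = (X - α) (X - β)`. -/
def powerSum (a b : ℤ) : ℕ → ℤ
  | 0 => 2
  | 1 => a
  | n + 2 => a * powerSum a b (n + 1) - b * powerSum a b n

/-- The Euler factor at `v`. -/
noncomputable def fac (D : OK) (k : ℕ) (s : ℂ) (v : HeightOneSpectrum OK) : ℂ :=
  if s7 * D ∈ v.asIdeal then 1 else
    (1 - ((powerSum (av D v) (nv v) (2 * k - 1) : ℤ) : ℂ) * (nv v : ℂ) ^ (-s) +
      (nv v : ℂ) ^ (((2 * k - 1 : ℕ) : ℂ) - 2 * s))⁻¹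

/-- The entire function `F` is the `L`-function of weight `2 k` of `E_D`. -/
def IsL (D : OK) (k : ℕ) (F : ℂ → ℂ) : Prop := Differentiable ℂ F ∧
  ∀ s : ℂ, (k : ℝ) + 1 / 2 < s.re → HasProd (fac D k s) (F s)

/-- The function `Λ` is the `L`-function `L(s, V_k)` over `L = K(√d_1, …, √d_n)` of the motive `V_k` of
`ψ_M^{2k-1}`, with the centre `s = 0`: the product over the characters `χ_T` of `Gal(L/K)`, `T ⊆ {1, …, n}`; the
twist of `V_k` by `χ_T` belongs to the curve `E_D`, where `D = M ∏_{i ∈ T} d_i` up to squares. -/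
def IsLOver (M : OK) {n : ℕ} (d : Fin n → OK) (k : ℕ) (Λ : ℂ → ℂ) : Prop :=
  ∃ F : Finset (Fin n) → ℂ → ℂ,
    (∀ T, ∃ D z : OK, z ≠ 0 ∧ Adm D ∧ M * ∏ i ∈ T, d i = D * z ^ 2 ∧ IsL D k (F T)) ∧
    ∀ s, Λ s = ∏ T, F T (s + k)

/-! ### The statement -/

/-- `H^0(L, ℚ_2(χ)) = 0`, `L` being the field fixed by `H`. -/
def InvariantsZero {w : QBar} (H : Sub w) (χ : Chr w) : Prop :=
  ∀ y : ℚ_[2], (∀ σ ∈ H, qv χ σ * y = y) → y = 0

/-- The order formula for `V_k`: the `L`-function `Λ` of `V_k` over `L = K(s_1, …, s_n)`, `s_i² = d_i`, is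
entire and of order zero at the centre, and all the classes of the Selmer groups over `L` of
`ℚ_2(κ^k κ'^(1-k))` and `ℚ_2(κ^(1-k) κ'^k)` are trivial and their invariants are zero. -/
def Formula {w : QBar} (κ κ' : Chr w) (M : OK) {n : ℕ} (d : Fin n → OK) (s : Fin n → QBar) (k : ℕ) :
    Prop :=
  (∃ Λ : ℂ → ℂ, Differentiable ℂ Λ ∧ IsLOver M d k Λ ∧ analyticOrderAt Λ 0 = 0) ∧
    (SelmerZero (1 - w) (GalL w s) (chi κ κ' k) ∧ InvariantsZero (GalL w s) (chi κ κ' k)) ∧
    (SelmerZero w (GalL w s) (chi κ κ' (1 - k)) ∧ InvariantsZero (GalL w s) (chi κ κ' (1 - k)))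

/-- The curve `E_M` is isomorphic to the elliptic curve `ED w (tw M)`, the Galois group acts on its
`2`-adic Tate module by `κ`, `κ'`, and the order formula for `V_k` holds over `L = K(√d_1, …, √d_n)` for
all `k ≥ 1` with the property `C`. -/
def OrderFormula (C : ℕ → Prop) (M : OK) {n : ℕ} (d : Fin n → OK) : Prop :=
  ∀ w : QBar, w ^ 2 = w - 2 →
  Iso (EK w M) (ED w (tw M)) ∧ (ED w (tw M)).IsElliptic ∧
  ∃ κ κ' : Chr w, TateModule (tw M) κ κ' ∧
    ∀ s : Fin n → QBar, (∀ i, s i ^ 2 = emb w (d i)) → ∀ k : ℕ, 1 ≤ k → C k → Formula κ κ' M d s k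

/-- The proportion `(1 - 1/2) (1 - 1/4) (1 - 1/8) ⋯`. -/
noncomputable def c : ℝ := ∏' i : ℕ, (1 - (1 / 2 : ℝ) ^ (i + 1))

/-- In the set of the `D` of the class that are prime to `M d_1 ⋯ d_n`, the natural density of the `D` such that
the pair `(M D; d_1, …, d_n)` has the property `P` is `y`, and if `(M; d_1, …, d_n)` has the property `P` then the
natural density of the `D` such that `(M; d_1, …, d_n, D)` has the property `P` is also `y`. -/
def Law (P : OK → Prop) (M : OK) {n : ℕ} (d : Fin n → OK) (y : ℝ) : Prop :=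
  Density (M * ∏ i, d i) (fun D => Pair P (M * D) d) y ∧
    (Pair P M d → Density (M * ∏ i, d i) (fun D => Pair P M (add d D)) y)

/-! ### The proof -/

section proof

open Pool.Agent.Y676.IS (Cu some_congr)
open Pool.Agent.R384 (WD ca cb em)

variable {w : QBar} (hw : w ^ 2 = w - 2) {D : OK}

lemma gen_sq : gen w ^ 2 = gen w - 2 ↔ w ^ 2 = w - 2 := by
  rw [Subtype.ext_iff]
  rfl

lemma emb_eq (z : OK) : ((emb (gen w) z : K w) : QBar) = em hw z := by
  unfold emb
  rw [Pool.Agent.R384.em_apply]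
  push_cast
  rfl

lemma curve_eq : (ED w D).toAffine.baseChange QBar = Cu (ca w (em hw D)) (cb w (em hw D)) := by
  have h1 : algebraMap (K w) QBar (gen w) = w := rfl
  have h2 : algebraMap (K w) QBar (emb (gen w) D) = em hw D := emb_eq hw D
  unfold ED curve Cu ca cb WeierstrassCurve.Affine.baseChange WeierstrassCurve.toAffine
  ext
  · exact map_zero _
  · show algebraMap (K w) QBar (3 * (1 - gen w) * emb (gen w) D) = _
    rw [map_mul, map_mul, map_sub, map_one, map_ofNat, h1, h2]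
  · exact map_zero _
  · show algebraMap (K w) QBar (gen w ^ 4 * emb (gen w) D ^ 2) = _
    rw [map_mul, map_pow, map_pow, h1, h2]
  · exact map_zero _

/-- the points of equal curves -/
noncomputable def tr {W W' : Affine QBar} (h : W = W') : W.Point ≃+ W'.Point := by
  subst h
  exact AddEquiv.refl _

lemma tr_some {W W' : Affine QBar} (h : W = W') {a b : QBar} (hab : W.Nonsingular a b) :
    tr h (.some a b hab) = .some a b (h ▸ hab) := by
  subst h
  rfl

lemma tr_act (h : WD w (em hw D)) (fx : ∀ σ : Gal w, Pool.Agent.R384.Fx w (em hw D)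
    (Pool.Agent.R384.rh σ)) (σ : Gal w) (P : Pts w D) :
    tr (curve_eq hw) (act σ P) = Pool.Agent.R384.act h fx σ (tr (curve_eq hw) P) := by
  rcases P with _ | ⟨a, b, hab⟩
  · show tr (curve_eq hw) (act σ 0) = Pool.Agent.R384.act h fx σ (tr (curve_eq hw) 0)
    simp only [map_zero]
  · rw [tr_some (curve_eq hw) hab]
    exact tr_some (curve_eq hw) (a := σ.toAlgHom a) (b := σ.toAlgHom b)
      ((Affine.baseChange_nonsingular (ED w D).toAffine σ.toAlgHom.injective ..).mpr hab)

lemma elliptic (hD : D ≠ 0) (hw : w ^ 2 = w - 2) : (ED w D).IsElliptic := by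
  have hg := gen_sq.2 hw
  have hg0 : gen w ≠ 0 := by
    intro h
    rw [h] at hg
    norm_num at hg
  have hg1 : 1 - gen w ≠ 0 := by
    intro h
    have h1 : gen w = 1 := (sub_eq_zero.1 h).symm
    rw [h1] at hg
    norm_num at hg
  have hd : (emb (gen w) D : K w) ≠ 0 := by
    intro h
    have h1 := emb_eq hw D
    rw [h] at h1
    exact hD (Pool.Agent.R384.em_inj hw h1.symm)
  rw [WeierstrassCurve.isElliptic_iff, isUnit_iff_ne_zero]
  have e : (ED w D).Δ = 16 * (gen w ^ 4 * emb (gen w) D ^ 2) ^ 2 *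
      ((1 - gen w) ^ 8 * emb (gen w) D ^ 2) := by
    simp only [ED, curve, WeierstrassCurve.Δ, WeierstrassCurve.b₂, WeierstrassCurve.b₄,
      WeierstrassCurve.b₆, WeierstrassCurve.b₈]
    generalize emb (gen w) D = d at *
    generalize gen w = g at *
    have h2 : (1 - g) ^ 2 = -1 - g := by linear_combination hg
    have h4 : (1 - g) ^ 4 = 3 * g - 1 := by
      have : (1 - g) ^ 4 = ((1 - g) ^ 2) ^ 2 := by ring
      rw [this, h2]
      linear_combination hg
    have h8 : (1 - g) ^ 8 = 3 * g - 17 := by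
      have : (1 - g) ^ 8 = ((1 - g) ^ 4) ^ 2 := by ring
      rw [this, h4]
      linear_combination 9 * hg
    have g4 : g ^ 4 = 2 - 3 * g := by linear_combination (g ^ 2 + g - 1) * hg
    rw [h8]
    have e1 : 9 * (1 - g) ^ 2 - 4 * g ^ 4 = 3 * g - 17 := by
      rw [h2, g4]; ring
    rw [← e1]
    ring
  rw [e]
  exact mul_ne_zero (mul_ne_zero (by norm_num) (pow_ne_zero _ (mul_ne_zero (pow_ne_zero _ hg0)
    (pow_ne_zero _ hd)))) (mul_ne_zero (pow_ne_zero _ hg1) (pow_ne_zero _ hd))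

/-! ### The isomorphism -/

lemma gen_iso {F : Type} [Field F] [CharZero F] {g d : F} (hg : g ^ 2 = g - 2) :
    (⟨Units.mk0 (1 / 2 : F) (by norm_num), -((g + 2) * d / 4), -(1 / 2), (g + 2) * d / 8⟩ :
      VariableChange F) • twist d =
      ⟨0, 3 * (1 - g) * (d - 2 * d * g), 0, g ^ 4 * (d - 2 * d * g) ^ 2, 0⟩ := by
  unfold twist
  have hu : (((Units.mk0 (1 / 2 : F) (by norm_num))⁻¹ : Fˣ) : F) = 2 := by
    simp
  ext
  · simp only [variableChange_a₁, hu]
    norm_num
  · simp only [variableChange_a₂, hu]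
    linear_combination (-6 * d) * hg
  · simp only [variableChange_a₃, hu]
    ring
  · simp only [variableChange_a₄, hu]
    linear_combination ((-4 * g ^ 4 + 7 * g ^ 2 + 7 * g - 4) * d ^ 2) * hg
  · simp only [variableChange_a₆, hu]
    linear_combination ((-g - 10) * d ^ 3) * hg

lemma emb_em (hw : w ^ 2 = w - 2) (z : OK) : emb (gen w) z = em (gen_sq.2 hw) z := by
  rw [Pool.Agent.R384.em_apply]
  rfl

lemma emb_em' (hw : w ^ 2 = w - 2) (z : OK) : emb w z = em hw z := by
  rw [Pool.Agent.R384.em_apply]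
  rfl

lemma tw_iso (hw : w ^ 2 = w - 2) (M : OK) : Iso (EK w M) (ED w (tw M)) := by
  have hg := gen_sq.2 hw
  have hs : (em hg s7 : K w) = 2 * gen w - 1 := by
    rw [Pool.Agent.R384.em_apply]
    unfold s7
    push_cast
    ring
  have hemb : (emb (gen w) (tw M) : K w) = emb (gen w) M - 2 * emb (gen w) M * gen w := by
    rw [emb_em hw, emb_em hw, tw, map_neg, map_mul, hs]
    ring
  have h1 := gen_iso (d := emb (gen w) M) hg
  have h2 : ED w (tw M) = ⟨0, 3 * (1 - gen w) * (emb (gen w) M - 2 * emb (gen w) M * gen w), 0,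
      gen w ^ 4 * (emb (gen w) M - 2 * emb (gen w) M * gen w) ^ 2, 0⟩ := by
    unfold ED curve
    rw [hemb]
  rw [h2]
  exact ⟨_, h1⟩

lemma galL_eq {n : ℕ} (s : Fin n → QBar) : GalL w s = Pool.Agent.R384.fixs s Finset.univ := by
  ext σ
  unfold GalL
  rw [IntermediateField.mem_fixingSubgroup_iff]
  constructor
  · intro h i _
    exact h (s i) (IntermediateField.subset_adjoin _ _ ⟨i, rfl⟩)
  · intro h x hx
    have h1 : IntermediateField.adjoin (K w) (Set.range s) ≤
        IntermediateField.fixedField (Pool.Agent.R384.fixs s Finset.univ) := by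
      rw [IntermediateField.adjoin_le_iff]
      rintro _ ⟨i, rfl⟩
      rw [SetLike.mem_coe, IntermediateField.mem_fixedField_iff]
      intro f hf
      exact hf i (Finset.mem_univ i)
    exact (IntermediateField.mem_fixedField_iff _ x).1 (h1 hx) σ h

/-- the transfer -/
lemma selmer_of {v : Pool.Agent.R384.OO} {χ : Chr w} {H : Sub w}
    (h : Pool.Agent.R384.VanOn hw v χ H) {v' : QBar} (hv : Pool.Agent.R384.em hw v = v') :
    SelmerZero v' H χ := by
  intro c hc hs
  obtain ⟨y, hy⟩ := h c ⟨hc.cont, hc.mul⟩ (fun p _ ι hp => hs.odd p ι hp) (fun ι hι => by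
    rw [hv] at hι
    exact hs.two ι hι)
  exact ⟨y, fun σ _ h => hy σ h⟩

/-- the invariants -/
lemma inv_of {χ : Chr w} {H : Sub w} {σ : Gal w} (hσ : σ ∈ H) (h : χ σ ≠ 1) :
    InvariantsZero H χ := by
  intro y hy
  have h1 := hy σ hσ
  have h2 : qv χ σ - 1 ≠ 0 := by
    intro h3
    apply h
    apply Units.ext
    have h4 : ((zv χ σ : ℤ_[2]) : ℚ_[2]) = ((1 : ℤ_[2]) : ℚ_[2]) := by
      push_cast
      exact sub_eq_zero.1 h3
    exact Subtype.ext h4
  have h3 : (qv χ σ - 1) * y = 0 := by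
    rw [sub_mul, one_mul, h1, sub_self]
  exact (mul_eq_zero.1 h3).resolve_left h2

/-! ### The `L`-functions of the good elements -/

lemma powerSum_eq (a b : ℤ) : ∀ n, powerSum a b n = Pool.Agent.H519.KW.powerSum a b n ∧
    powerSum a b (n + 1) = Pool.Agent.H519.KW.powerSum a b (n + 1) := by
  intro n
  induction n with
  | zero => exact ⟨rfl, rfl⟩
  | succ n ih =>
    refine ⟨ih.2, ?_⟩
    show a * powerSum a b (n + 1) - b * powerSum a b n =
      a * Pool.Agent.H519.KW.powerSum a b (n + 1) - b * Pool.Agent.H519.KW.powerSum a b n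
    rw [ih.1, ih.2]

lemma fac_eq (D : OK) (k : ℕ) (s : ℂ) : fac D k s = Pool.Agent.H519.KW.fac D k s := by
  funext v
  unfold fac
  rw [(powerSum_eq _ _ _).1]
  rfl

lemma isL_of {D : OK} {k : ℕ} {F : ℂ → ℂ} (h : Pool.Agent.H519.KW.IsL D k F) : IsL D k F := by
  refine ⟨h.1, fun s hs => ?_⟩
  rw [fac_eq]
  exact h.2 s hs

open Pool.Agent.H519.Q7 (rec_BK sup_BG)

/-- what is needed of a good element, for the weight `2 k` -/
def Gk (k : ℕ) (D : OK) : Prop := ∃ S : Finset OK, ∏ q ∈ S, q = D ∧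
  Pool.Agent.NH57.BK.GoodS S ∧ (Odd k ∨ Pool.Agent.NH57.BH.GoodX 0 0 S)

lemma gk_of {D : OK} (hA : Adm D) (h : Good D) {k : ℕ} (hk : Odd k) : Gk k D := by
  obtain ⟨S, hS, hD, hR⟩ := h
  exact ⟨S, hD, Pool.Agent.H519.KW.Gb.goodS_of hS (by rw [hD]; exact hA.2.1) hR, Or.inl hk⟩

lemma gk_of' {D : OK} (hA : Adm D) (h : VeryGood D) (k : ℕ) : Gk k D := by
  obtain ⟨S, hS, hD, hR, hB⟩ := h
  have h8 : (8 : OK) ∣ ∏ q ∈ S, q - 1 := by rw [hD]; exact hA.2.1
  exact ⟨S, hD, Pool.Agent.H519.KW.Gb.goodS_of hS h8 hR,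
    Or.inr (Pool.Agent.H519.KW.Gb.goodX_of hS h8 hR hB)⟩

lemma exists_L {D : OK} (hA : Adm D) {k : ℕ} (hk : 1 ≤ k) (h : Gk k D) :
    ∃ F : ℂ → ℂ, IsL D k F ∧ F k ≠ 0 := by
  obtain ⟨S, rfl, hS, hX⟩ := h
  obtain ⟨F, h1, h2⟩ := Pool.Agent.H519.KW.lval hS.pp hA.2.1
    (Pool.Agent.H519.KW.ad_of rec_BK sup_BG hS hA.2.1) hk
    (hX.imp_right fun h => Pool.Agent.H519.KW.det_of rec_BK sup_BG h hA.2.1)
  exact ⟨F, isL_of h1, h2⟩

/-- the `L`-function over the multiquadratic field -/
lemma exists_Λ {M : OK} {n : ℕ} {d : Fin n → OK} {k : ℕ} (hk : 1 ≤ k)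
    (hG : ∀ T : Finset (Fin n), ∃ D z : OK, z ≠ 0 ∧ Adm D ∧ Gk k D ∧ M * ∏ i ∈ T, d i = D * z ^ 2) :
    ∃ Λ : ℂ → ℂ, Differentiable ℂ Λ ∧ IsLOver M d k Λ ∧ analyticOrderAt Λ 0 = 0 := by
  choose D z hz hD hR he using hG
  choose F hF hF0 using fun T => exists_L (hD T) hk (hR T)
  have hd : Differentiable ℂ fun s : ℂ => ∏ T, F T (s + k) := by
    have h1 : ∀ T ∈ (Finset.univ : Finset (Finset (Fin n))),
        Differentiable ℂ fun s : ℂ => F T (s + k) := fun T _ =>
      (hF T).1.comp (differentiable_id.add_const _)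
    exact Differentiable.fun_finsetProd h1
  refine ⟨fun s => ∏ T, F T (s + k), hd, ⟨F, fun T => ⟨D T, z T, hz T, hD T, he T, hF T⟩,
    fun s => rfl⟩, ?_⟩
  rw [analyticOrderAt_eq_zero]
  right
  rw [Finset.prod_ne_zero_iff]
  intro T _
  rw [zero_add]
  exact hF0 T

lemma tw_ne {M : OK} (hM : M ≠ 0) : tw M ≠ 0 := by
  unfold tw
  rw [neg_ne_zero]
  refine mul_ne_zero ?_ hM
  intro h
  exact absurd (congrArg QuadraticAlgebra.im h) (by decide)

/-- the order formula -/
lemma all_of {C : ℕ → Prop} {M : OK} {n : ℕ} {d : Fin n → OK}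
    (hG : ∀ k, 1 ≤ k → C k → ∀ T : Finset (Fin n), ∃ D z : OK, z ≠ 0 ∧ Adm D ∧ Gk k D ∧
      M * ∏ i ∈ T, d i = D * z ^ 2)
    (hA : ∀ T : Finset (Fin n), ∃ D z : OK, z ≠ 0 ∧ Adm D ∧ M * ∏ i ∈ T, d i = D * z ^ 2) :
    OrderFormula C M d := by
  intro w hw
  have hne : ∀ T : Finset (Fin n), M * ∏ i ∈ T, d i ≠ 0 := by
    intro T
    obtain ⟨D, z, hz, hD, he⟩ := hA T
    rw [he]
    exact mul_ne_zero hD.1.ne_zero (pow_ne_zero 2 hz)
  have hM0 : M ≠ 0 := left_ne_zero_of_mul (hne ∅)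
  have hd0 : ∀ i, d i ≠ 0 := by
    intro i
    have h1 := hne {i}
    rw [Finset.prod_singleton] at h1
    exact right_ne_zero_of_mul h1
  have hD := tw_ne hM0
  refine ⟨tw_iso hw M, elliptic hD hw, ?_⟩
  have h : Pool.Agent.R384.WD w (Pool.Agent.R384.em hw (tw M)) := ⟨hw, Pool.Agent.R384.em_ne hw hD⟩
  obtain ⟨r, hr⟩ : ∃ r : QBar, r ^ 2 = Pool.Agent.R384.em hw (tw M) :=
    IsAlgClosed.exists_pow_nat_eq _ (by norm_num)
  obtain ⟨I, hI⟩ : ∃ I : QBar, I ^ 2 = -1 := IsAlgClosed.exists_pow_nat_eq _ (by norm_num)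
  have fx : ∀ σ : Gal w, Pool.Agent.R384.Fx w (Pool.Agent.R384.em hw (tw M))
      (Pool.Agent.R384.rh σ) := fun σ =>
    ⟨Pool.Agent.Y715.Gi.gk_fix σ, Pool.Agent.R384.gk_em hw σ (tw M)⟩
  obtain ⟨κ, κ', x, y, kd, k8, hx, hy, ax, ay⟩ := Pool.Agent.NH57.BK.t_K8 hw hD h hr hI fx
  have td := Pool.Agent.R384.td h
  set T := tr (curve_eq hw (D := tw M)) with hT
  have hor : ∀ {p : ℕ} [Fact p.Prime] (ι : QBar →ₐ[ℚ] PadicAlgCl p) (s : QBar) (z : OK),
      s ^ 2 = Pool.Agent.R384.em hw z → ∀ σ : Gal w, σ s = s ∨ σ s = -s := fun ι s z hs σ =>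
    Pool.Agent.R384.rt_or hw hs σ
  have hIr : (I * r) ^ 2 = Pool.Agent.R384.em hw (-tw M) := by rw [mul_pow, hI, hr, map_neg]; ring
  refine ⟨κ, κ', ⟨⟨fun n => T.symm (y n), fun n => T.symm (x n), ⟨?_, ?_, ?_, ?_⟩,
    ⟨Units.continuous_val.comp kd.cont, fun σ => ?_⟩,
    ⟨Units.continuous_val.comp kd.cont', fun σ => ?_⟩⟩, ?_, ?_⟩, ?_⟩
  · show T.symm (y 0) = 0 ∧ T.symm (x 0) = 0
    rw [hx.zero, hy.zero, map_zero]
    exact ⟨rfl, rfl⟩
  · intro n
    show T.symm (y (n + 1)) + T.symm (y (n + 1)) = T.symm (y n) ∧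
      T.symm (x (n + 1)) + T.symm (x (n + 1)) = T.symm (x n)
    rw [← map_add, ← map_add, hx.dbl, hy.dbl]
    exact ⟨rfl, rfl⟩
  · intro n P hP
    have h1 : (2 ^ n : ℤ) • T P = 0 := by rw [← map_zsmul, hP, map_zero]
    obtain ⟨a, b, hab⟩ := Pool.Agent.R384.Tow.basis td hx hy h1
    refine ⟨b, a, ?_⟩
    apply T.injective
    show T P = T (b • T.symm (y n) + a • T.symm (x n))
    rw [map_add, map_zsmul, map_zsmul, T.apply_symm_apply, T.apply_symm_apply, hab, add_comm]
  · intro n a b hab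
    have h1 : T (a • T.symm (y n) + b • T.symm (x n)) = 0 := by
      show T ((fun n => a • T.symm (y n) + b • T.symm (x n)) n) = 0
      rw [show (fun n => a • T.symm (y n) + b • T.symm (x n)) n = 0 from hab, map_zero]
    rw [map_add, map_zsmul, map_zsmul, T.apply_symm_apply, T.apply_symm_apply, add_comm] at h1
    exact (Pool.Agent.R384.Tow.uniq td hx hy h1).symm
  · intro n k hk
    show act σ (T.symm (y n)) = k • T.symm (y n)
    apply T.injective
    rw [hT, tr_act hw h fx σ, ← hT, T.apply_symm_apply, map_zsmul, T.apply_symm_apply]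
    exact ay σ n k hk
  · intro n k hk
    show act σ (T.symm (x n)) = k • T.symm (x n)
    apply T.injective
    rw [hT, tr_act hw h fx σ, ← hT, T.apply_symm_apply, map_zsmul, T.apply_symm_apply]
    exact ax σ n k hk
  · rintro p _ ι hn σ ⟨τ, hτ, hin⟩
    have h1 := kd.inert p ι τ σ hτ hin hn
    unfold zv
    rcases hor ι _ _ hIr σ with h2 | h2
    · rw [h1.1 h2, Units.val_one, one_pow]
    · rw [h1.2 h2, Units.val_neg, Units.val_one, neg_one_sq]
  · rintro p _ ι hn σ ⟨τ, hτ, hin⟩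
    have h1 := kd.inert' p ι τ σ hτ hin hn
    unfold zv
    rcases hor ι _ _ hr σ with h2 | h2
    · rw [h1.1 h2, Units.val_one, one_pow]
    · rw [h1.2 h2, Units.val_neg, Units.val_one, neg_one_sq]
  · intro s hs k hk1 hkC
    have hE : ∀ i, s i ^ 2 = Pool.Agent.R384.em hw (d i) := fun i => by rw [hs i, emb_em' hw]
    have hom : Pool.Agent.R384.em hw Pool.Agent.R384.om = w := by
      rw [Pool.Agent.R384.em_apply]
      simp [Pool.Agent.R384.om]
    have hom' : Pool.Agent.R384.em hw (1 - Pool.Agent.R384.om) = 1 - w := by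
      rw [map_sub, map_one, hom]
    have hG' : ∀ T : Finset (Fin n), ∃ (S : Finset Pool.Agent.R384.OO) (z : Pool.Agent.R384.OO),
        Pool.Agent.NH57.BK.GoodS S ∧ (Odd k ∨ Pool.Agent.NH57.BH.GoodX 0 0 S) ∧ z ≠ 0 ∧
        tw M * ∏ i ∈ T, d i = -(Pool.Agent.R384.s7 * ∏ q ∈ S, q) * z ^ 2 := by
      intro T
      obtain ⟨D, z, hz, hA, ⟨S, hSD, hS, hX⟩, he⟩ := hG k hk1 hkC T
      refine ⟨S, z, hS, hX, hz, ?_⟩
      rw [hSD]
      unfold tw
      have : s7 = Pool.Agent.R384.s7 := rfl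
      rw [this]
      linear_combination (-Pool.Agent.R384.s7) * he
    have hmv : ∀ T : Finset (Fin n), ∃ D z : Pool.Agent.R384.OO, z ≠ 0 ∧
        ¬ Pool.Agent.R384.s7 ∣ D ∧ M * ∏ i ∈ T, d i = D * z ^ 2 := by
      intro T
      obtain ⟨D, z, hz, hD, he⟩ := hA T
      exact ⟨D, z, hz, hD.2.2, he⟩
    have hu1 : Pool.Agent.R384.nn (1 : Pool.Agent.R384.OO) = 1 := by decide
    have hu2 : Pool.Agent.R384.nn (-1 : Pool.Agent.R384.OO) = 1 := by decide
    obtain ⟨σ₁, hσ₁, hm₁⟩ := Pool.Agent.H519.KW.exists_move hw hd0 hE (x := I * r) (N := M) hu1 (by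
      rw [hIr]
      congr 1
      unfold tw
      rw [neg_neg, one_mul]
      rfl) hmv
    obtain ⟨σ₂, hσ₂, hm₂⟩ := Pool.Agent.H519.KW.exists_move hw hd0 hE (x := r) (N := M) hu2 (by
      rw [hr]
      congr 1
      unfold tw
      rw [neg_one_mul]
      rfl) hmv
    unfold Formula
    rw [galL_eq]
    rcases Nat.even_or_odd k with hkp | hkp
    · have hkp' : ¬ Odd k := Nat.not_odd_iff_even.2 hkp
      have hke : Even (k : ℤ) := by exact_mod_cast hkp
      have hko : Odd (1 - (k : ℤ)) := odd_one.sub_even hke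
      have hX : ∀ T : Finset (Fin n), ∃ (x y : ZMod 2) (S : Finset Pool.Agent.R384.OO)
          (z : Pool.Agent.R384.OO), Pool.Agent.NH57.BH.GoodX x y S ∧ z ≠ 0 ∧
          tw M * ∏ i ∈ T, d i = -(Pool.Agent.R384.s7 * ∏ q ∈ S, q) * z ^ 2 := by
        intro T
        obtain ⟨S, z, h1, h2, h3, h4⟩ := hG' T
        exact ⟨0, 0, S, z, h2.resolve_left hkp', h3, h4⟩
      have hv := fun (j : ℤ) (ϖ : Pool.Agent.R384.OO) =>
        Pool.Agent.NH57.BH.t_MQG Pool.Agent.H519.KW.vanG hw hE kd k8 hD hd0 hX j (ϖ' := ϖ)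
      exact ⟨exists_Λ hk1 (hG k hk1 hkC),
        ⟨selmer_of hw (hv k _ (Or.inl ⟨hke, rfl⟩)) hom',
          inv_of hσ₂ (Pool.Agent.H519.AW.Hz.move_even hw kd hke hm₂)⟩,
        ⟨selmer_of hw (hv (1 - k) _ (Or.inr ⟨hko, rfl⟩)) hom,
          inv_of hσ₁ (Pool.Agent.H519.AW.Hz.move_odd hw kd hko hm₁)⟩⟩
    · have hko : Odd (k : ℤ) := by exact_mod_cast hkp
      have hke : Even (1 - (k : ℤ)) := odd_one.sub_odd hko
      have hX : ∀ T : Finset (Fin n), ∃ (S : Finset Pool.Agent.R384.OO)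
          (z : Pool.Agent.R384.OO), Pool.Agent.NH57.BK.GoodS S ∧ z ≠ 0 ∧
          tw M * ∏ i ∈ T, d i = -(Pool.Agent.R384.s7 * ∏ q ∈ S, q) * z ^ 2 := by
        intro T
        obtain ⟨S, z, h1, h2, h3, h4⟩ := hG' T
        exact ⟨S, z, h1, h3, h4⟩
      have hv := fun (j : ℤ) (ϖ : Pool.Agent.R384.OO) =>
        Pool.Agent.NH57.BK.t_MQ Pool.Agent.H519.KW.van hw hE kd k8 hD hd0 hX j (ϖ := ϖ)
      exact ⟨exists_Λ hk1 (hG k hk1 hkC),
        ⟨selmer_of hw (hv k _ (Or.inr ⟨hko, rfl⟩)) hom',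
          inv_of hσ₁ (Pool.Agent.H519.AW.Hz.move_odd hw kd hko hm₁)⟩,
        ⟨selmer_of hw (hv (1 - k) _ (Or.inl ⟨hke, rfl⟩)) hom,
          inv_of hσ₂ (Pool.Agent.H519.AW.Hz.move_even hw kd hke hm₂)⟩⟩

lemma odd_of {M : OK} {n : ℕ} {d : Fin n → OK} (h : Pair Good M d) : OrderFormula Odd M d :=
  all_of (fun k _ hk T => by
    obtain ⟨D, z, hz, hA, hg, he⟩ := h.2 T
    exact ⟨D, z, hz, hA, gk_of hA hg hk, he⟩) fun T => by
    obtain ⟨D, z, hz, hA, hg, he⟩ := h.2 T
    exact ⟨D, z, hz, hA, he⟩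

lemma every_of {M : OK} {n : ℕ} {d : Fin n → OK} (h : Pair VeryGood M d) :
    OrderFormula (fun _ => True) M d :=
  all_of (fun k _ _ T => by
    obtain ⟨D, z, hz, hA, hg, he⟩ := h.2 T
    exact ⟨D, z, hz, hA, gk_of' hA hg k, he⟩) fun T => by
    obtain ⟨D, z, hz, hA, hg, he⟩ := h.2 T
    exact ⟨D, z, hz, hA, he⟩

end proof

/-- **The order formula of Bloch and Kato for all weights.** The order formula for the prime `2` holds for
all the good pairs and all odd `k`, and for all the very good pairs and all `k ≥ 1`. For all `M`,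
`d_1, …, d_n` of the class, independent modulo squares, the natural density, in the set of the `D` of the class
prime to them, of the `D` such that `(M D; d_1, …, d_n)` is good (very good) is `c ^ (2 ^ n)`
(`(c / 2) ^ (2 ^ n)`), and the same is true for the extensions `(M; d_1, …, d_n, D)` of a good (very good) pair;
`c = 0.288…`. -/
theorem result :
    (∀ (n : ℕ) (M : OK) (d : Fin n → OK), Pair Good M d → OrderFormula Odd M d) ∧
    (∀ (n : ℕ) (M : OK) (d : Fin n → OK), Pair VeryGood M d → OrderFormula (fun _ => True) M d) ∧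
    (∀ (n : ℕ) (M : OK) (d : Fin n → OK), InClass M d →
      Law Good M d (c ^ 2 ^ n) ∧ Law VeryGood M d ((c / 2) ^ 2 ^ n)) ∧
    0.2887 < c ∧ c < 0.2889 :=
  ⟨fun _ _ _ h => odd_of h, fun _ _ _ h => every_of h, fun _ _ _ h =>
    ⟨⟨Pool.Agent.H519.KW.Dn.dens_one h, fun hP =>
      Pool.Agent.H519.KW.Dn.dens_ext h _ hP (Pool.Agent.H519.KW.Dn.dens_one h)⟩,
    ⟨Pool.Agent.H519.KW.Dn.dens_two h, fun hP =>
      Pool.Agent.H519.KW.Dn.dens_ext h _ hP (Pool.Agent.H519.KW.Dn.dens_two h)⟩⟩,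
    Pool.Agent.N916.GB.eta_bounds.1, Pool.Agent.N916.GB.eta_bounds.2⟩

end Pool.Agent.Results.MP_ec4e4b_nt.OrderFormulaAllWeights
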